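import Pool.Agent.H586.AF.C

/-!
# AF-EX: expansion of the derivatives of the energy (helper120)
-/

set_option autoImplicit false
set_option linter.unusedVariables false

open MeasureTheory Matrix Finset Filter Topology
open scoped Quaternion

namespace Pool.Agent.H120.AF

open Pool.Agent.H586.AF

noncomputable section

/-! ### Fourfold sums -/

/-- a fourfold sum -/
def S4 (A B C D : Finset ℕ) (F : ℕ → ℕ → ℕ → ℕ → ℝ) : ℝ :=
  ∑ x ∈ A, ∑ y ∈ B, ∑ z ∈ C, ∑ h ∈ D, F x y z h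

theorem S4_abs {A B C D : Finset ℕ} {F : ℕ → ℕ → ℕ → ℕ → ℝ} {n : ℕ} {b : ℝ} (hb : 0 ≤ b)
    (hA : A.card ≤ n) (hB : B.card ≤ n) (hC : C.card ≤ n) (hD : D.card ≤ n)
    (hF : ∀ x ∈ A, ∀ y ∈ B, ∀ z ∈ C, ∀ h ∈ D, |F x y z h| ≤ b) :
    |S4 A B C D F| ≤ (n : ℝ) ^ 4 * b := by
  have step : ∀ (s : Finset ℕ) (g : ℕ → ℝ) (c : ℝ), 0 ≤ c → s.card ≤ n → (∀ i ∈ s, |g i| ≤ c) →
      |∑ i ∈ s, g i| ≤ n * c := by
    intro s g c hc hs hg
    refine (Finset.abs_sum_le_sum_abs _ _).trans ((Finset.sum_le_sum hg).trans ?_)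
    rw [Finset.sum_const, nsmul_eq_mul]
    exact mul_le_mul_of_nonneg_right (by exact_mod_cast hs) hc
  have hn : (0 : ℝ) ≤ n := Nat.cast_nonneg n
  have h := step A (fun x => ∑ y ∈ B, ∑ z ∈ C, ∑ h ∈ D, F x y z h) (n * (n * (n * b)))
    (by positivity) hA fun x hx =>
      step B _ _ (by positivity) hB fun y hy =>
        step C _ _ (by positivity) hC fun z hz =>
          step D _ _ hb hD fun h hh => hF x hx y hy z hz h hh
  unfold S4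
  refine h.trans (le_of_eq ?_)
  ring

theorem S4_hasDerivAt {A B C D : Finset ℕ} {F : ℝ → ℕ → ℕ → ℕ → ℕ → ℝ}
    {F' : ℕ → ℕ → ℕ → ℕ → ℝ} {θ : ℝ}
    (h : ∀ x y z h, HasDerivAt (fun θ => F θ x y z h) (F' x y z h) θ) :
    HasDerivAt (fun θ => S4 A B C D (F θ)) (S4 A B C D F') θ := by
  unfold S4
  exact HasDerivAt.fun_sum fun x _ => HasDerivAt.fun_sum fun y _ =>
    HasDerivAt.fun_sum fun z _ => HasDerivAt.fun_sum fun k _ => h x y z k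

theorem S4_continuous {X : Type} [TopologicalSpace X] {A B C D : Finset ℕ}
    {F : X → ℕ → ℕ → ℕ → ℕ → ℝ} (h : ∀ x y z h, Continuous fun σ => F σ x y z h) :
    Continuous fun σ => S4 A B C D (F σ) := by
  unfold S4
  exact continuous_finsetSum _ fun x _ => continuous_finsetSum _ fun y _ =>
    continuous_finsetSum _ fun z _ => continuous_finsetSum _ fun k _ => h x y z k

theorem S4_add {A B C D : Finset ℕ} (F G : ℕ → ℕ → ℕ → ℕ → ℝ) :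
    S4 A B C D (fun x y z h => F x y z h + G x y z h) = S4 A B C D F + S4 A B C D G := by
  unfold S4
  simp only [Finset.sum_add_distrib]

theorem S4_sub {A B C D : Finset ℕ} (F G : ℕ → ℕ → ℕ → ℕ → ℝ) :
    S4 A B C D (fun x y z h => F x y z h - G x y z h) = S4 A B C D F - S4 A B C D G := by
  unfold S4
  simp only [Finset.sum_sub_distrib]

theorem S4_smul {A B C D : Finset ℕ} (c : ℝ) (F : ℕ → ℕ → ℕ → ℕ → ℝ) :
    S4 A B C D (fun x y z h => c * F x y z h) = c * S4 A B C D F := by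
  unfold S4
  simp only [Finset.mul_sum]

theorem S4_const {A B C D : Finset ℕ} (c : ℝ) :
    S4 A B C D (fun _ _ _ _ => c) = A.card * (B.card * (C.card * (D.card * c))) := by
  unfold S4
  simp only [Finset.sum_const, nsmul_eq_mul]

/-! ### Measurability of derivatives -/

theorem meas_deriv {Ω : Type} [MeasurableSpace Ω] (e e1 : ℝ → Ω → ℝ)
    (he : ∀ θ, Measurable (e θ)) (h : ∀ θ ω, HasDerivAt (fun θ => e θ ω) (e1 θ ω) θ) (θ : ℝ) :
    Measurable (e1 θ) := by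
  have ht : Tendsto (fun n : ℕ => (1 : ℝ) / ((n : ℝ) + 1)) atTop (𝓝[≠] 0) := by
    rw [tendsto_nhdsWithin_iff]
    refine ⟨tendsto_one_div_add_atTop_nhds_zero_nat, Filter.Eventually.of_forall fun n => ?_⟩
    rw [Set.mem_compl_iff, Set.mem_singleton_iff]
    positivity
  refine measurable_of_tendsto_metrizable
    (f := fun (n : ℕ) (ω : Ω) => ((1 : ℝ) / ((n : ℝ) + 1))⁻¹ •
      (e (θ + (1 : ℝ) / ((n : ℝ) + 1)) ω - e θ ω)) ?_ ?_
  · intro n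
    exact Measurable.const_smul ((he _).sub (he θ)) (((1 : ℝ) / ((n : ℝ) + 1))⁻¹)
  · rw [tendsto_pi_nhds]
    intro ω
    exact (h θ ω).tendsto_slope_zero.comp ht

/-! ### Extended fields -/

section ext

variable {R S : Type} (L : ℕ)

theorem ex1_map (f : R → S) (u : I1 L → R) (w : R) (x y z h : ℕ) :
    ex1 L (fun i => f (u i)) (f w) x y z h = f (ex1 L u w x y z h) := by
  unfold ex1
  split_ifs <;> rfl

theorem ex2_map (f : R → S) (u : I2 L → R) (w : R) (x y z h : ℕ) :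
    ex2 L (fun i => f (u i)) (f w) x y z h = f (ex2 L u w x y z h) := by
  unfold ex2
  split_ifs <;> rfl

theorem ex3_map (f : R → S) (u : I3 L → R) (w : R) (x y z h : ℕ) :
    ex3 L (fun i => f (u i)) (f w) x y z h = f (ex3 L u w x y z h) := by
  unfold ex3
  split_ifs <;> rfl

end ext

/-- the extended fields -/
def V1 {L : ℕ} (σ : IH L → SU) : ℕ → ℕ → ℕ → ℕ → SU := ex1 L (fun i => σ (Sum.inl i)) 1
/-- the extended fields -/
def V2 {L : ℕ} (σ : IH L → SU) : ℕ → ℕ → ℕ → ℕ → SU :=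
  ex2 L (fun i => σ (Sum.inr (Sum.inl i))) 1
/-- the extended fields -/
def V3 {L : ℕ} (σ : IH L → SU) : ℕ → ℕ → ℕ → ℕ → SU :=
  ex3 L (fun i => σ (Sum.inr (Sum.inr i))) 1

theorem one_coe : ((1 : SU) : ℍ[ℝ]) = 1 := rfl

theorem e1_coe {L : ℕ} (σ : IH L → SU) (x y z h : ℕ) :
    ex1 L (fun i => (σ (Sum.inl i) : ℍ[ℝ])) 1 x y z h = (V1 σ x y z h : ℍ[ℝ]) :=
  ex1_map L (fun q : SU => (q : ℍ[ℝ])) (fun i => σ (Sum.inl i)) 1 x y z h
theorem e2_coe {L : ℕ} (σ : IH L → SU) (x y z h : ℕ) :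
    ex2 L (fun i => (σ (Sum.inr (Sum.inl i)) : ℍ[ℝ])) 1 x y z h = (V2 σ x y z h : ℍ[ℝ]) :=
  ex2_map L (fun q : SU => (q : ℍ[ℝ])) (fun i => σ (Sum.inr (Sum.inl i))) 1 x y z h
theorem e3_coe {L : ℕ} (σ : IH L → SU) (x y z h : ℕ) :
    ex3 L (fun i => (σ (Sum.inr (Sum.inr i)) : ℍ[ℝ])) 1 x y z h = (V3 σ x y z h : ℍ[ℝ]) :=
  ex3_map L (fun q : SU => (q : ℍ[ℝ])) (fun i => σ (Sum.inr (Sum.inr i))) 1 x y z h

theorem sz_nonneg {L : ℕ} (σ : IH L → SU) : 0 ≤ sz σ :=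
  Finset.sum_nonneg fun _ _ => norm_nonneg _

theorem le_sz {L : ℕ} (σ : IH L → SU) (l : IH L) : ‖(σ l : ℍ[ℝ]) - 1‖ ≤ sz σ := by
  unfold sz
  exact Finset.single_le_sum (f := fun l => ‖(σ l : ℍ[ℝ]) - 1‖) (fun _ _ => norm_nonneg _)
    (Finset.mem_univ l)

theorem V1_sz {L : ℕ} (σ : IH L → SU) (x y z h : ℕ) : ‖(V1 σ x y z h : ℍ[ℝ]) - 1‖ ≤ sz σ := by
  unfold V1 ex1
  split_ifs with c
  · exact le_sz σ _
  · rw [one_coe, sub_self, norm_zero]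
    exact sz_nonneg σ
theorem V2_sz {L : ℕ} (σ : IH L → SU) (x y z h : ℕ) : ‖(V2 σ x y z h : ℍ[ℝ]) - 1‖ ≤ sz σ := by
  unfold V2 ex2
  split_ifs with c
  · exact le_sz σ _
  · rw [one_coe, sub_self, norm_zero]
    exact sz_nonneg σ
theorem V3_sz {L : ℕ} (σ : IH L → SU) (x y z h : ℕ) : ‖(V3 σ x y z h : ℍ[ℝ]) - 1‖ ≤ sz σ := by
  unfold V3 ex3
  split_ifs with c
  · exact le_sz σ _
  · rw [one_coe, sub_self, norm_zero]
    exact sz_nonneg σ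

theorem V1_cont {L : ℕ} (x y z h : ℕ) :
    Continuous fun σ : IH L → SU => (V1 σ x y z h : ℍ[ℝ]) := by
  unfold V1 ex1
  split_ifs with c
  · exact continuous_subtype_val.comp (continuous_apply _)
  · exact continuous_const
theorem V2_cont {L : ℕ} (x y z h : ℕ) :
    Continuous fun σ : IH L → SU => (V2 σ x y z h : ℍ[ℝ]) := by
  unfold V2 ex2
  split_ifs with c
  · exact continuous_subtype_val.comp (continuous_apply _)
  · exact continuous_const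
theorem V3_cont {L : ℕ} (x y z h : ℕ) :
    Continuous fun σ : IH L → SU => (V3 σ x y z h : ℍ[ℝ]) := by
  unfold V3 ex3
  split_ifs with c
  · exact continuous_subtype_val.comp (continuous_apply _)
  · exact continuous_const

theorem norm_SU (q : SU) : ‖(q : ℍ[ℝ])‖ = 1 := by
  have := q.2
  rwa [mem_sphere_zero_iff_norm] at this

theorem norm_bg (θ x : ℝ) : ‖bg θ x‖ = 1 := by
  have h : ‖bg θ x‖ * ‖bg θ x‖ = 1 := by
    rw [← Quaternion.normSq_eq_norm_mul_self, Quaternion.normSq_def']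
    unfold bg
    have := Real.cos_sq_add_sin_sq (θ * x / 2)
    simp only
    nlinarith
  nlinarith [norm_nonneg (bg θ x)]

theorem abs_re_le (q : ℍ[ℝ]) : |q.re| ≤ ‖q‖ := by
  have h : q.re ^ 2 ≤ ‖q‖ ^ 2 := by
    rw [sq ‖q‖, ← Quaternion.normSq_eq_norm_mul_self, Quaternion.normSq_def']
    nlinarith [sq_nonneg q.imI, sq_nonneg q.imJ, sq_nonneg q.imK]
  exact abs_le_of_sq_le_sq h (norm_nonneg q)

theorem pe_bound {a b c d : ℍ[ℝ]} (ha : ‖a‖ = 1) (hb : ‖b‖ = 1) (hc : ‖c‖ = 1) (hd : ‖d‖ = 1) :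
    |pe a b c d| ≤ 4 := by
  have h := abs_re_le (a * b * star c * star d)
  rw [norm_mul, norm_mul, norm_mul, norm_star, norm_star, ha, hb, hc, hd] at h
  unfold pe
  have h2 := abs_le.1 h
  rw [abs_le]
  constructor <;> linarith [h2.1, h2.2]

theorem pe_cont {X : Type} [TopologicalSpace X] {a b c d : X → ℍ[ℝ]} (ha : Continuous a)
    (hb : Continuous b) (hc : Continuous c) (hd : Continuous d) :
    Continuous fun s => pe (a s) (b s) (c s) (d s) := by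
  unfold pe
  exact continuous_const.sub (continuous_const.mul (Quaternion.continuous_re.comp
    (((ha.mul hb).mul hc.star).mul hd.star)))

/-! ### The quadratic forms -/

theorem ee_cd (x : ℝ) : ContDiff ℝ 2 fun θ : ℝ => ee θ x := by
  unfold ee
  have h1 : ContDiff ℝ 2 fun θ : ℝ => ((θ * x : ℝ) : ℂ) :=
    Complex.ofRealCLM.contDiff.comp (contDiff_id.mul contDiff_const)
  exact (contDiff_const.mul h1).cexp

theorem re_cd {f : ℝ → ℂ} (hf : ContDiff ℝ 2 f) : ContDiff ℝ 2 fun θ => (f θ).re :=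
  Complex.reCLM.contDiff.comp hf

theorem q12_cd (x : ℝ) (a b c d : ℂ) : ContDiff ℝ 2 fun θ => q12 θ x a b c d := by
  unfold q12
  refine ContDiff.sub ?_ (re_cd ?_)
  · have h1 : ContDiff ℝ 2 fun θ : ℝ => Real.cos (θ / 2) :=
      Real.contDiff_cos.comp (contDiff_id.div_const 2)
    exact (contDiff_const.mul h1).mul contDiff_const
  · have h := ee_cd
    exact (((((((h _).mul contDiff_const).mul contDiff_const).neg.sub
      (((h _).mul contDiff_const).mul contDiff_const)).add contDiff_const).add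
      (((h _).mul contDiff_const).mul contDiff_const)).add
      (((h _).mul contDiff_const).mul contDiff_const)).add
      (((h _).mul contDiff_const).mul contDiff_const)

theorem q23_cd (x : ℝ) (a b c d : ℂ) : ContDiff ℝ 2 fun θ => q23 θ x a b c d := by
  have h := ee_cd
  have h1 : ContDiff ℝ 2 fun θ : ℝ => a - c + ee θ (x / 2) * b - ee θ (-(x / 2)) * d :=
    ((contDiff_const.add ((h _).mul contDiff_const)).sub ((h _).mul contDiff_const))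
  have e : (fun θ => q23 θ x a b c d) = fun θ : ℝ => (1 / 2) *
      ((a - c + ee θ (x / 2) * b - ee θ (-(x / 2)) * d).re ^ 2 +
        (a - c + ee θ (x / 2) * b - ee θ (-(x / 2)) * d).im ^ 2) := by
    funext θ
    unfold q23
    rw [← Complex.normSq_eq_norm_sq, Complex.normSq_apply]
    ring
  rw [e]
  exact contDiff_const.mul (((re_cd h1).pow 2).add ((Complex.imCLM.contDiff.comp h1).pow 2))

theorem cd2 {f : ℝ → ℝ} (hf : ContDiff ℝ 2 f) (θ : ℝ) :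
    HasDerivAt f (deriv f θ) θ ∧ HasDerivAt (deriv f) (deriv (deriv f) θ) θ := by
  refine ⟨(hf.differentiable (by norm_num) θ).hasDerivAt, ?_⟩
  have h1 : ContDiff ℝ 1 (deriv f) := by
    have h2 : ContDiff ℝ (1 + 1) f := by
      have : (1 : WithTop ℕ∞) + 1 = 2 := by norm_num
      rw [this]
      exact hf
    exact (contDiff_succ_iff_deriv.1 h2).2.2
  exact (h1.differentiable (by norm_num) θ).hasDerivAt

/-! ### The sums over the plaquettes -/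

/-- sum over the plaquettes of the plane 12 -/
def T12 (L : ℕ) (f : SU → SU → SU → SU → ℕ → ℝ) (σ : IH L → SU) : ℝ :=
  S4 (range L) (range L) (Ico 1 L) (Icc 1 L) fun x y z h =>
    f (V1 σ x y z h) (V2 σ (x + 1) y z h) (V1 σ x (y + 1) z h) (V2 σ x y z h) x

/-- sum over the plaquettes of the plane 23 -/
def T23 (L : ℕ) (f : SU → SU → SU → SU → ℕ → ℝ) (σ : IH L → SU) : ℝ :=
  S4 (Ico 1 L) (range L) (range L) (Icc 1 L) fun x y z h =>
    f (V2 σ x y z h) (V3 σ x (y + 1) z h) (V2 σ x y (z + 1) h) (V3 σ x y z h) x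

theorem T12_sub {L : ℕ} (f g : SU → SU → SU → SU → ℕ → ℝ) (σ : IH L → SU) :
    T12 L (fun a b c d x => f a b c d x - g a b c d x) σ = T12 L f σ - T12 L g σ := S4_sub _ _
theorem T12_add {L : ℕ} (f g : SU → SU → SU → SU → ℕ → ℝ) (σ : IH L → SU) :
    T12 L (fun a b c d x => f a b c d x + g a b c d x) σ = T12 L f σ + T12 L g σ := S4_add _ _
theorem T12_smul {L : ℕ} (r : ℝ) (f : SU → SU → SU → SU → ℕ → ℝ) (σ : IH L → SU) :
    T12 L (fun a b c d x => r * f a b c d x) σ = r * T12 L f σ := S4_smul _ _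
theorem T23_sub {L : ℕ} (f g : SU → SU → SU → SU → ℕ → ℝ) (σ : IH L → SU) :
    T23 L (fun a b c d x => f a b c d x - g a b c d x) σ = T23 L f σ - T23 L g σ := S4_sub _ _

theorem T12_const {L : ℕ} (hL : 2 ≤ L) (r : ℝ) (σ : IH L → SU) :
    T12 L (fun _ _ _ _ _ => r) σ = (L : ℝ) ^ 3 * (L - 1) * r := by
  unfold T12
  rw [S4_const, card_range, Nat.card_Ico, Nat.card_Icc, Nat.add_sub_cancel,
    Nat.cast_sub (by omega), Nat.cast_one]
  ring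

theorem T12_deriv {L : ℕ} {f : ℝ → SU → SU → SU → SU → ℕ → ℝ} {f' : SU → SU → SU → SU → ℕ → ℝ}
    {θ : ℝ} (h : ∀ a b c d x, HasDerivAt (fun θ => f θ a b c d x) (f' a b c d x) θ)
    (σ : IH L → SU) : HasDerivAt (fun θ => T12 L (f θ) σ) (T12 L f' σ) θ :=
  S4_hasDerivAt fun x y z k => h _ _ _ _ _
theorem T23_deriv {L : ℕ} {f : ℝ → SU → SU → SU → SU → ℕ → ℝ} {f' : SU → SU → SU → SU → ℕ → ℝ}
    {θ : ℝ} (h : ∀ a b c d x, HasDerivAt (fun θ => f θ a b c d x) (f' a b c d x) θ)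
    (σ : IH L → SU) : HasDerivAt (fun θ => T23 L (f θ) σ) (T23 L f' σ) θ :=
  S4_hasDerivAt fun x y z k => h _ _ _ _ _

theorem T12_abs {L : ℕ} {f : SU → SU → SU → SU → ℕ → ℝ} {σ : IH L → SU} {b : ℝ} (hb : 0 ≤ b)
    (h : ∀ a1 a2 a3 a4 : SU, ‖(a1 : ℍ[ℝ]) - 1‖ ≤ sz σ → ‖(a2 : ℍ[ℝ]) - 1‖ ≤ sz σ →
      ‖(a3 : ℍ[ℝ]) - 1‖ ≤ sz σ → ‖(a4 : ℍ[ℝ]) - 1‖ ≤ sz σ → ∀ x : ℕ, x < L →
      |f a1 a2 a3 a4 x| ≤ b) : |T12 L f σ| ≤ (L : ℝ) ^ 4 * b := by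
  refine S4_abs hb (by rw [card_range]) (by rw [card_range]) (by rw [Nat.card_Ico]; omega)
    (by rw [Nat.card_Icc]; omega) fun x hx y _ z _ k _ => ?_
  exact h _ _ _ _ (V1_sz σ _ _ _ _) (V2_sz σ _ _ _ _) (V1_sz σ _ _ _ _) (V2_sz σ _ _ _ _) x
    (mem_range.1 hx)
theorem T23_abs {L : ℕ} {f : SU → SU → SU → SU → ℕ → ℝ} {σ : IH L → SU} {b : ℝ} (hb : 0 ≤ b)
    (h : ∀ a1 a2 a3 a4 : SU, ‖(a1 : ℍ[ℝ]) - 1‖ ≤ sz σ → ‖(a2 : ℍ[ℝ]) - 1‖ ≤ sz σ →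
      ‖(a3 : ℍ[ℝ]) - 1‖ ≤ sz σ → ‖(a4 : ℍ[ℝ]) - 1‖ ≤ sz σ → ∀ x : ℕ, x < L →
      |f a1 a2 a3 a4 x| ≤ b) : |T23 L f σ| ≤ (L : ℝ) ^ 4 * b := by
  refine S4_abs hb (by rw [Nat.card_Ico]; omega) (by rw [card_range]) (by rw [card_range])
    (by rw [Nat.card_Icc]; omega) fun x hx y _ z _ k _ => ?_
  exact h _ _ _ _ (V2_sz σ _ _ _ _) (V3_sz σ _ _ _ _) (V2_sz σ _ _ _ _) (V3_sz σ _ _ _ _) x
    (mem_Ico.1 hx).2

/-- telescoping -/
theorem T12_tele {L : ℕ} (f : SU → ℝ) (hf : f 1 = 0) (σ : IH L → SU) :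
    T12 L (fun a b c d _ => f a + f b - f c - f d) σ = 0 := by
  have e : T12 L (fun a b c d _ => f a + f b - f c - f d) σ =
      (∑ x ∈ range L, ∑ y ∈ range L, ∑ z ∈ Ico 1 L, ∑ h ∈ Icc 1 L,
        (f (V1 σ x y z h) - f (V1 σ x (y + 1) z h))) +
      ∑ x ∈ range L, ∑ y ∈ range L, ∑ z ∈ Ico 1 L, ∑ h ∈ Icc 1 L,
        (f (V2 σ (x + 1) y z h) - f (V2 σ x y z h)) := by
    unfold T12 S4
    simp only [← Finset.sum_add_distrib]
    refine sum_congr rfl fun x _ => sum_congr rfl fun y _ => sum_congr rfl fun z _ =>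
      sum_congr rfl fun h _ => ?_
    ring
  rw [e]
  have h1 : ∀ x, ∑ y ∈ range L, ∑ z ∈ Ico 1 L, ∑ h ∈ Icc 1 L,
      (f (V1 σ x y z h) - f (V1 σ x (y + 1) z h)) = 0 := by
    intro x
    have h2 : ∀ y, ∑ z ∈ Ico 1 L, ∑ h ∈ Icc 1 L,
        (f (V1 σ x y z h) - f (V1 σ x (y + 1) z h)) =
        (∑ z ∈ Ico 1 L, ∑ h ∈ Icc 1 L, f (V1 σ x y z h)) -
          ∑ z ∈ Ico 1 L, ∑ h ∈ Icc 1 L, f (V1 σ x (y + 1) z h) := by
      intro y
      simp only [Finset.sum_sub_distrib]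
    rw [sum_congr rfl fun y _ => h2 y,
      Finset.sum_range_sub' (fun y => ∑ z ∈ Ico 1 L, ∑ h ∈ Icc 1 L, f (V1 σ x y z h))]
    have h3 : ∀ z h, f (V1 σ x 0 z h) = 0 := by
      intro z h
      unfold V1 ex1
      rw [dif_neg (by omega), hf]
    have h4 : ∀ z h, f (V1 σ x L z h) = 0 := by
      intro z h
      unfold V1 ex1
      rw [dif_neg (by omega), hf]
    simp only [h3, h4, Finset.sum_const_zero, sub_zero]
  have h5 : ∀ x, ∑ y ∈ range L, ∑ z ∈ Ico 1 L, ∑ h ∈ Icc 1 L,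
      (f (V2 σ (x + 1) y z h) - f (V2 σ x y z h)) =
      (∑ y ∈ range L, ∑ z ∈ Ico 1 L, ∑ h ∈ Icc 1 L, f (V2 σ (x + 1) y z h)) -
        ∑ y ∈ range L, ∑ z ∈ Ico 1 L, ∑ h ∈ Icc 1 L, f (V2 σ x y z h) := by
    intro x
    simp only [Finset.sum_sub_distrib]
  rw [sum_congr rfl fun x _ => h1 x, sum_const_zero, zero_add, sum_congr rfl fun x _ => h5 x,
    Finset.sum_range_sub (fun x => ∑ y ∈ range L, ∑ z ∈ Ico 1 L, ∑ h ∈ Icc 1 L, f (V2 σ x y z h))]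
  have h3 : ∀ y z h, f (V2 σ 0 y z h) = 0 := by
    intro y z h
    unfold V2 ex2
    rw [dif_neg (by omega), hf]
  have h4 : ∀ y z h, f (V2 σ L y z h) = 0 := by
    intro y z h
    unfold V2 ex2
    rw [dif_neg (by omega), hf]
  simp only [h3, h4, Finset.sum_const_zero, sub_zero]

/-! ### The energy -/

theorem re_comm (p q : ℍ[ℝ]) : (p * q).re = (q * p).re := by
  rw [Quaternion.re_mul, Quaternion.re_mul]
  ring

theorem pe24 (θ u : ℝ) (a c : ℍ[ℝ]) :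
    pe (bg θ u * a * bg θ u) 1 (bg θ u * c * bg θ u) 1 = pe a 1 c 1 := by
  have h1 : bg θ u * star (bg θ u) = 1 := by
    rw [Quaternion.self_mul_star, Quaternion.normSq_eq_norm_mul_self, norm_bg]
    norm_num
  have h2 : star (bg θ u) * bg θ u = 1 := by
    rw [Quaternion.star_mul_self, Quaternion.normSq_eq_norm_mul_self, norm_bg]
    norm_num
  unfold pe
  set g := bg θ u with hg
  rw [mul_one, mul_one, star_one, mul_one, mul_one, star_mul, star_mul]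
  have h3 : g * a * g * (star g * (star c * star g)) = g * (a * (star c * star g)) := by
    calc g * a * g * (star g * (star c * star g)) = g * a * (g * star g) * (star c * star g) := by
          simp only [mul_assoc]
      _ = g * (a * (star c * star g)) := by rw [h1, mul_one, mul_assoc]
  have h4 : (g * (a * (star c * star g))).re = (a * star c).re := by
    rw [re_comm]
    congr 1
    calc a * (star c * star g) * g = a * star c * (star g * g) := by simp only [mul_assoc]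
      _ = a * star c := by rw [h2, mul_one]
  rw [h3, h4]

/-- the energy of a plaquette of the plane 12 -/
def E12 (θ : ℝ) (a b c d : SU) (x : ℕ) : ℝ :=
  pe a (bg θ (((x : ℝ) + 1) / 2) * b * bg θ (((x : ℝ) + 1) / 2)) c
    (bg θ ((x : ℝ) / 2) * d * bg θ ((x : ℝ) / 2))

/-- the energy of a plaquette of the plane 23 -/
def E23 (θ : ℝ) (a b c d : SU) (x : ℕ) : ℝ :=
  pe (bg θ ((x : ℝ) / 2) * a * bg θ ((x : ℝ) / 2)) b (bg θ ((x : ℝ) / 2) * c * bg θ ((x : ℝ) / 2)) d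

/-- the part of the energy which does not depend on the field -/
def Kst {L : ℕ} (σ : IH L → SU) : ℝ :=
  s13 L (fun x y z h => pe (V1 σ x y z h) (V3 σ (x + 1) y z h) (V1 σ x y (z + 1) h) (V3 σ x y z h)) +
  s14 L (fun x y z h => pe (V1 σ x y z h) 1 (V1 σ x y z (h + 1)) 1) +
  s24 L (fun x y z h => pe (V2 σ x y z h) 1 (V2 σ x y z (h + 1)) 1) +
  s34 L (fun x y z h => pe (V3 σ x y z h) 1 (V3 σ x y z (h + 1)) 1)

theorem en_eq {L : ℕ} (θ : ℝ) (σ : IH L → SU) :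
    en L θ σ = T12 L (E12 θ) σ + T23 L (E23 θ) σ + Kst σ := by
  have e12 : T12 L (E12 θ) σ = s12 L (fun x y z h =>
    pe (V1 σ x y z h) (bg θ (((x : ℝ) + 1) / 2) * (V2 σ (x + 1) y z h) * bg θ (((x : ℝ) + 1) / 2))
      (V1 σ x (y + 1) z h) (bg θ ((x : ℝ) / 2) * (V2 σ x y z h) * bg θ ((x : ℝ) / 2))) := rfl
  have e23 : T23 L (E23 θ) σ = s23 L (fun x y z h =>
    pe (bg θ ((x : ℝ) / 2) * (V2 σ x y z h) * bg θ ((x : ℝ) / 2)) (V3 σ x (y + 1) z h)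
      (bg θ ((x : ℝ) / 2) * (V2 σ x y (z + 1) h) * bg θ ((x : ℝ) / 2)) (V3 σ x y z h)) := rfl
  rw [e12, e23]
  unfold en wil Kst
  simp only [e1_coe, e2_coe, e3_coe, pe24, Nat.cast_add, Nat.cast_one]
  ring

theorem en_cont {L : ℕ} (θ : ℝ) : Continuous (en L θ) := by
  have e : en L θ = fun σ => T12 L (E12 θ) σ + T23 L (E23 θ) σ + Kst σ := funext fun σ => en_eq θ σ
  rw [e]
  have c1 := fun x y z h => V1_cont (L := L) x y z h
  have c2 := fun x y z h => V2_cont (L := L) x y z h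
  have c3 := fun x y z h => V3_cont (L := L) x y z h
  refine (Continuous.add ?_ ?_).add ?_
  · refine S4_continuous fun x y z h => ?_
    exact pe_cont (c1 _ _ _ _) ((continuous_const.mul (c2 _ _ _ _)).mul continuous_const)
      (c1 _ _ _ _) ((continuous_const.mul (c2 _ _ _ _)).mul continuous_const)
  · refine S4_continuous fun x y z h => ?_
    exact pe_cont ((continuous_const.mul (c2 _ _ _ _)).mul continuous_const) (c3 _ _ _ _)
      ((continuous_const.mul (c2 _ _ _ _)).mul continuous_const) (c3 _ _ _ _)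
  · unfold Kst
    refine ((Continuous.add ?_ ?_).add ?_).add ?_
    · exact S4_continuous fun x y z h => pe_cont (c1 _ _ _ _) (c3 _ _ _ _) (c1 _ _ _ _) (c3 _ _ _ _)
    · exact S4_continuous fun x y z h => pe_cont (c1 _ _ _ _) continuous_const (c1 _ _ _ _)
        continuous_const
    · exact S4_continuous fun x y z h => pe_cont (c2 _ _ _ _) continuous_const (c2 _ _ _ _)
        continuous_const
    · exact S4_continuous fun x y z h => pe_cont (c3 _ _ _ _) continuous_const (c3 _ _ _ _)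
        continuous_const

theorem norm_conj (θ u : ℝ) (a : SU) : ‖bg θ u * (a : ℍ[ℝ]) * bg θ u‖ = 1 := by
  rw [norm_mul, norm_mul, norm_bg, norm_SU]
  norm_num

theorem norm_one' : ‖(1 : ℍ[ℝ])‖ = 1 := norm_one

theorem Kst_bound {L : ℕ} (σ : IH L → SU) : |Kst σ| ≤ 16 * (L : ℝ) ^ 4 := by
  have h0 : (0 : ℝ) ≤ 4 := by norm_num
  have r0 : (range L).card ≤ L := by rw [card_range]
  have i0 : (Ico 1 L).card ≤ L := by rw [Nat.card_Ico]; omega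
  have c0 : (Icc 1 L).card ≤ L := by rw [Nat.card_Icc]; omega
  have a1 : |s13 L (fun x y z h => pe (V1 σ x y z h) (V3 σ (x + 1) y z h) (V1 σ x y (z + 1) h)
      (V3 σ x y z h))| ≤ (L : ℝ) ^ 4 * 4 :=
    S4_abs h0 r0 i0 r0 c0 fun x _ y _ z _ h _ =>
      pe_bound (norm_SU _) (norm_SU _) (norm_SU _) (norm_SU _)
  have a2 : |s14 L (fun x y z h => pe (V1 σ x y z h) 1 (V1 σ x y z (h + 1)) 1)| ≤
      (L : ℝ) ^ 4 * 4 :=
    S4_abs h0 r0 i0 i0 r0 fun x _ y _ z _ h _ =>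
      pe_bound (norm_SU _) norm_one' (norm_SU _) norm_one'
  have a3 : |s24 L (fun x y z h => pe (V2 σ x y z h) 1 (V2 σ x y z (h + 1)) 1)| ≤
      (L : ℝ) ^ 4 * 4 :=
    S4_abs h0 i0 r0 i0 r0 fun x _ y _ z _ h _ =>
      pe_bound (norm_SU _) norm_one' (norm_SU _) norm_one'
  have a4 : |s34 L (fun x y z h => pe (V3 σ x y z h) 1 (V3 σ x y z (h + 1)) 1)| ≤
      (L : ℝ) ^ 4 * 4 :=
    S4_abs h0 i0 i0 r0 r0 fun x _ y _ z _ h _ =>
      pe_bound (norm_SU _) norm_one' (norm_SU _) norm_one'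
  unfold Kst
  have t1 := abs_add_le (s13 L (fun x y z h => pe (V1 σ x y z h) (V3 σ (x + 1) y z h)
    (V1 σ x y (z + 1) h) (V3 σ x y z h)) +
    s14 L (fun x y z h => pe (V1 σ x y z h) 1 (V1 σ x y z (h + 1)) 1) +
    s24 L (fun x y z h => pe (V2 σ x y z h) 1 (V2 σ x y z (h + 1)) 1))
    (s34 L (fun x y z h => pe (V3 σ x y z h) 1 (V3 σ x y z (h + 1)) 1))
  have t2 := abs_add_le (s13 L (fun x y z h => pe (V1 σ x y z h) (V3 σ (x + 1) y z h)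
    (V1 σ x y (z + 1) h) (V3 σ x y z h)) +
    s14 L (fun x y z h => pe (V1 σ x y z h) 1 (V1 σ x y z (h + 1)) 1))
    (s24 L (fun x y z h => pe (V2 σ x y z h) 1 (V2 σ x y z (h + 1)) 1))
  have t3 := abs_add_le (s13 L (fun x y z h => pe (V1 σ x y z h) (V3 σ (x + 1) y z h)
    (V1 σ x y (z + 1) h) (V3 σ x y z h)))
    (s14 L (fun x y z h => pe (V1 σ x y z h) 1 (V1 σ x y z (h + 1)) 1))
  linarith

theorem en_bound {L : ℕ} (θ : ℝ) (σ : IH L → SU) : |en L θ σ| ≤ 24 * (L : ℝ) ^ 4 := by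
  rw [en_eq]
  have h1 : |T12 L (E12 θ) σ| ≤ (L : ℝ) ^ 4 * 4 := T12_abs (by norm_num)
    fun a b c d _ _ _ _ x _ => pe_bound (norm_SU _) (norm_conj _ _ _) (norm_SU _) (norm_conj _ _ _)
  have h2 : |T23 L (E23 θ) σ| ≤ (L : ℝ) ^ 4 * 4 := T23_abs (by norm_num)
    fun a b c d _ _ _ _ x _ => pe_bound (norm_conj _ _ _) (norm_SU _) (norm_conj _ _ _) (norm_SU _)
  have h3 := Kst_bound σ
  have t1 := abs_add_le (T12 L (E12 θ) σ + T23 L (E23 θ) σ) (Kst σ)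
  have t2 := abs_add_le (T12 L (E12 θ) σ) (T23 L (E23 θ) σ)
  linarith

/-! ### The quadratic form -/

theorem ch_one : ch ((1 : SU) : ℍ[ℝ]) = 0 := by
  rw [one_coe]
  unfold ch
  simp

theorem ph_one (a : Fin 3) : ph a ((1 : SU) : ℍ[ℝ]) = 0 := by
  rw [one_coe]
  unfold ph
  simp

theorem b1_ch {L : ℕ} (σ : IH L → SU) (x y z h : ℕ) :
    ex1 L (fun i => ch (σ (Sum.inl i) : ℍ[ℝ])) 0 x y z h = ch (V1 σ x y z h : ℍ[ℝ]) := by
  have e : ex1 L (fun i => ch (σ (Sum.inl i) : ℍ[ℝ])) (ch ((1 : SU) : ℍ[ℝ])) x y z h =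
      ch (V1 σ x y z h : ℍ[ℝ]) :=
    ex1_map L (fun q : SU => ch (q : ℍ[ℝ])) (fun i => σ (Sum.inl i)) 1 x y z h
  rwa [ch_one] at e
theorem b2_ch {L : ℕ} (σ : IH L → SU) (x y z h : ℕ) :
    ex2 L (fun i => ch (σ (Sum.inr (Sum.inl i)) : ℍ[ℝ])) 0 x y z h = ch (V2 σ x y z h : ℍ[ℝ]) := by
  have e : ex2 L (fun i => ch (σ (Sum.inr (Sum.inl i)) : ℍ[ℝ])) (ch ((1 : SU) : ℍ[ℝ])) x y z h =
      ch (V2 σ x y z h : ℍ[ℝ]) :=
    ex2_map L (fun q : SU => ch (q : ℍ[ℝ])) (fun i => σ (Sum.inr (Sum.inl i))) 1 x y z h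
  rwa [ch_one] at e
theorem b3_ch {L : ℕ} (σ : IH L → SU) (x y z h : ℕ) :
    ex3 L (fun i => ch (σ (Sum.inr (Sum.inr i)) : ℍ[ℝ])) 0 x y z h = ch (V3 σ x y z h : ℍ[ℝ]) := by
  have e : ex3 L (fun i => ch (σ (Sum.inr (Sum.inr i)) : ℍ[ℝ])) (ch ((1 : SU) : ℍ[ℝ])) x y z h =
      ch (V3 σ x y z h : ℍ[ℝ]) :=
    ex3_map L (fun q : SU => ch (q : ℍ[ℝ])) (fun i => σ (Sum.inr (Sum.inr i))) 1 x y z h
  rwa [ch_one] at e
theorem b1_ph {L : ℕ} (σ : IH L → SU) (x y z h : ℕ) :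
    ex1 L (fun i => ph 2 (σ (Sum.inl i) : ℍ[ℝ])) 0 x y z h = ph 2 (V1 σ x y z h : ℍ[ℝ]) := by
  have e : ex1 L (fun i => ph 2 (σ (Sum.inl i) : ℍ[ℝ])) (ph 2 ((1 : SU) : ℍ[ℝ])) x y z h =
      ph 2 (V1 σ x y z h : ℍ[ℝ]) :=
    ex1_map L (fun q : SU => ph 2 (q : ℍ[ℝ])) (fun i => σ (Sum.inl i)) 1 x y z h
  rwa [ph_one] at e
theorem b2_ph {L : ℕ} (σ : IH L → SU) (x y z h : ℕ) :
    ex2 L (fun i => ph 2 (σ (Sum.inr (Sum.inl i)) : ℍ[ℝ])) 0 x y z h =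
      ph 2 (V2 σ x y z h : ℍ[ℝ]) := by
  have e : ex2 L (fun i => ph 2 (σ (Sum.inr (Sum.inl i)) : ℍ[ℝ])) (ph 2 ((1 : SU) : ℍ[ℝ])) x y z h =
      ph 2 (V2 σ x y z h : ℍ[ℝ]) :=
    ex2_map L (fun q : SU => ph 2 (q : ℍ[ℝ])) (fun i => σ (Sum.inr (Sum.inl i))) 1 x y z h
  rwa [ph_one] at e

/-- the quadratic form of the plane 12 -/
def Q12 (θ : ℝ) (a b c d : SU) (x : ℕ) : ℝ := q12 θ x (ch a) (ch b) (ch c) (ch d)
/-- the quadratic form of the plane 23 -/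
def Q23 (θ : ℝ) (a b c d : SU) (x : ℕ) : ℝ := q23 θ x (ch a) (ch b) (ch c) (ch d)

theorem qf_eq {L : ℕ} (σ : IH L → SU) : ∃ K : ℝ, ∀ θ : ℝ,
    qf L θ (fun l => ch (σ l : ℍ[ℝ])) = T12 L (Q12 θ) σ + T23 L (Q23 θ) σ + K := by
  refine ⟨s13 L (fun x y z h => (1 / 2) * ‖ch (V1 σ x y z h) + ch (V3 σ (x + 1) y z h) -
      ch (V1 σ x y (z + 1) h) - ch (V3 σ x y z h)‖ ^ 2) +
    s14 L (fun x y z h => (1 / 2) * ‖ch (V1 σ x y z (h + 1)) - ch (V1 σ x y z h)‖ ^ 2) +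
    s24 L (fun x y z h => (1 / 2) * ‖ch (V2 σ x y z (h + 1)) - ch (V2 σ x y z h)‖ ^ 2) +
    s34 L (fun x y z h => (1 / 2) * ‖ch (V3 σ x y z (h + 1)) - ch (V3 σ x y z h)‖ ^ 2), ?_⟩
  intro θ
  have e12 : T12 L (Q12 θ) σ = s12 L (fun x y z h =>
    q12 θ x (ch (V1 σ x y z h)) (ch (V2 σ (x + 1) y z h)) (ch (V1 σ x (y + 1) z h))
      (ch (V2 σ x y z h))) := rfl
  have e23 : T23 L (Q23 θ) σ = s23 L (fun x y z h =>
    q23 θ x (ch (V2 σ x y z h)) (ch (V3 σ x (y + 1) z h)) (ch (V2 σ x y (z + 1) h))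
      (ch (V3 σ x y z h))) := rfl
  rw [e12, e23]
  unfold qf
  simp only [b1_ch, b2_ch, b3_ch]
  ring

theorem c12_eq {L : ℕ} (σ : IH L → SU) :
    s12 L (fun x y z h => c12 (fun l => ph 2 (σ l : ℍ[ℝ])) x y z h ^ 2) =
      T12 L (fun a b c d _ => (ph 2 a + ph 2 b - ph 2 c - ph 2 d) ^ 2) σ := by
  have e12 : T12 L (fun a b c d _ => (ph 2 a + ph 2 b - ph 2 c - ph 2 d) ^ 2) σ =
    s12 L (fun x y z h => (ph 2 (V1 σ x y z h) + ph 2 (V2 σ (x + 1) y z h) -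
      ph 2 (V1 σ x (y + 1) z h) - ph 2 (V2 σ x y z h)) ^ 2) := rfl
  rw [e12]
  unfold c12
  simp only [b1_ph, b2_ph]

/-! ### The theorem -/

theorem sq_le {L x : ℕ} (h : x < L) : (1 + (x : ℝ)) ^ 2 ≤ (L : ℝ) ^ 2 := by
  have h1 : 1 + (x : ℝ) ≤ L := by
    have : 1 + x ≤ L := by omega
    exact_mod_cast this
  exact pow_le_pow_left₀ (by positivity) h1 2

theorem cube_le {a b c d s : ℝ} (ha : 0 ≤ a) (hb : 0 ≤ b) (hc : 0 ≤ c) (hd : 0 ≤ d) (has : a ≤ s)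
    (hbs : b ≤ s) (hcs : c ≤ s) (hds : d ≤ s) : (a + b + c + d) ^ 3 ≤ 64 * s ^ 3 := by
  have h1 : a + b + c + d ≤ 4 * s := by linarith
  calc (a + b + c + d) ^ 3 ≤ (4 * s) ^ 3 := pow_le_pow_left₀ (by positivity) h1 3
    _ = 64 * s ^ 3 := by ring

theorem tex (hP12 : S_P12) (hP23 : S_P23) : S_EX := by
  obtain ⟨C1, h1⟩ := hP12
  obtain ⟨C2, h2⟩ := hP23
  have h1' : ∀ (a b c d : SU) (x : ℕ), ∃ F1 F2 : ℝ → ℝ,
      (∀ θ, HasDerivAt (fun θ => E12 θ a b c d x) (F1 θ) θ) ∧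
      (∀ θ, HasDerivAt F1 (F2 θ) θ) ∧ (∀ θ, |F1 θ| ≤ |C1| * (1 + (x : ℝ)) ^ 2) ∧
      (∀ θ, |F2 θ| ≤ |C1| * (1 + (x : ℝ)) ^ 2) ∧
      |F1 0 - ((a : ℍ[ℝ]).imK + (b : ℍ[ℝ]).imK - (c : ℍ[ℝ]).imK - (d : ℍ[ℝ]).imK) -
        deriv (fun θ => Q12 θ a b c d x) 0| ≤ |C1| * (1 + (x : ℝ)) ^ 2 *
        (‖(a : ℍ[ℝ]) - 1‖ + ‖(b : ℍ[ℝ]) - 1‖ + ‖(c : ℍ[ℝ]) - 1‖ + ‖(d : ℍ[ℝ]) - 1‖) ^ 3 ∧
      |F2 0 - 1 / 2 + (1 / 8) * (ph 2 a + ph 2 b - ph 2 c - ph 2 d) ^ 2 -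
        deriv (deriv fun θ => Q12 θ a b c d x) 0| ≤ |C1| * (1 + (x : ℝ)) ^ 2 *
        (‖(a : ℍ[ℝ]) - 1‖ + ‖(b : ℍ[ℝ]) - 1‖ + ‖(c : ℍ[ℝ]) - 1‖ + ‖(d : ℍ[ℝ]) - 1‖) ^ 3 := by
    intro a b c d x
    obtain ⟨F1, F2, _, _, h3, h4, h5⟩ := h1 a b c d x (Nat.cast_nonneg x)
    have hc : C1 * (1 + (x : ℝ)) ^ 2 ≤ |C1| * (1 + (x : ℝ)) ^ 2 :=
      mul_le_mul_of_nonneg_right (le_abs_self _) (by positivity)
    refine ⟨F1, F2, fun θ => (h3 θ).1, fun θ => (h3 θ).2.1, fun θ => (h3 θ).2.2.1.trans hc,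
      fun θ => (h3 θ).2.2.2.trans hc, h4.trans ?_, h5.trans ?_⟩
    · exact mul_le_mul_of_nonneg_right hc (by positivity)
    · exact mul_le_mul_of_nonneg_right hc (by positivity)
  have h2' : ∀ (a b c d : SU) (x : ℕ), ∃ F1 F2 : ℝ → ℝ,
      (∀ θ, HasDerivAt (fun θ => E23 θ a b c d x) (F1 θ) θ) ∧
      (∀ θ, HasDerivAt F1 (F2 θ) θ) ∧ (∀ θ, |F1 θ| ≤ |C2| * (1 + (x : ℝ)) ^ 2) ∧
      (∀ θ, |F2 θ| ≤ |C2| * (1 + (x : ℝ)) ^ 2) ∧
      |F1 0 - deriv (fun θ => Q23 θ a b c d x) 0| ≤ |C2| * (1 + (x : ℝ)) ^ 2 *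
        (‖(a : ℍ[ℝ]) - 1‖ + ‖(b : ℍ[ℝ]) - 1‖ + ‖(c : ℍ[ℝ]) - 1‖ + ‖(d : ℍ[ℝ]) - 1‖) ^ 3 ∧
      |F2 0 - deriv (deriv fun θ => Q23 θ a b c d x) 0| ≤ |C2| * (1 + (x : ℝ)) ^ 2 *
        (‖(a : ℍ[ℝ]) - 1‖ + ‖(b : ℍ[ℝ]) - 1‖ + ‖(c : ℍ[ℝ]) - 1‖ + ‖(d : ℍ[ℝ]) - 1‖) ^ 3 := by
    intro a b c d x
    obtain ⟨F1, F2, _, _, h3, h4, h5⟩ := h2 a b c d x (Nat.cast_nonneg x)
    have hc : C2 * (1 + (x : ℝ)) ^ 2 ≤ |C2| * (1 + (x : ℝ)) ^ 2 :=
      mul_le_mul_of_nonneg_right (le_abs_self _) (by positivity)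
    refine ⟨F1, F2, fun θ => (h3 θ).1, fun θ => (h3 θ).2.1, fun θ => (h3 θ).2.2.1.trans hc,
      fun θ => (h3 θ).2.2.2.trans hc, h4.trans ?_, h5.trans ?_⟩
    · exact mul_le_mul_of_nonneg_right hc (by positivity)
    · exact mul_le_mul_of_nonneg_right hc (by positivity)
  choose A1 A2 hA1 hA2 bA1 bA2 rA1 rA2 using h1'
  choose B1 B2 hB1 hB2 bB1 bB2 rB1 rB2 using h2'
  refine ⟨64 * (|C1| + |C2|) + 24, fun L hL => ?_⟩
  have hL0 : (2 : ℝ) ≤ L := by exact_mod_cast hL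
  have hL46 : (L : ℝ) ^ 4 ≤ (L : ℝ) ^ 6 := pow_le_pow_right₀ (by linarith) (by norm_num)
  have hL6 : 0 ≤ (L : ℝ) ^ 6 := by positivity
  have a1 := abs_nonneg C1
  have a2 := abs_nonneg C2
  set e1 : ℝ → (IH L → SU) → ℝ := fun θ σ =>
    T12 L (fun a b c d x => A1 a b c d x θ) σ + T23 L (fun a b c d x => B1 a b c d x θ) σ with he1
  set e2 : ℝ → (IH L → SU) → ℝ := fun θ σ =>
    T12 L (fun a b c d x => A2 a b c d x θ) σ + T23 L (fun a b c d x => B2 a b c d x θ) σ with he2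
  have d1 : ∀ θ σ, HasDerivAt (fun θ => en L θ σ) (e1 θ σ) θ := by
    intro θ σ
    have e : (fun θ => en L θ σ) = fun θ => T12 L (E12 θ) σ + T23 L (E23 θ) σ + Kst σ :=
      funext fun θ => en_eq θ σ
    rw [e]
    exact ((T12_deriv (fun a b c d x => hA1 a b c d x θ) σ).add
      (T23_deriv (fun a b c d x => hB1 a b c d x θ) σ)).add_const _
  have d2 : ∀ θ σ, HasDerivAt (fun θ => e1 θ σ) (e2 θ σ) θ := fun θ σ =>
    (T12_deriv (fun a b c d x => hA2 a b c d x θ) σ).add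
      (T23_deriv (fun a b c d x => hB2 a b c d x θ) σ)
  have m0 : ∀ θ, Measurable (en L θ) := fun θ => (en_cont θ).measurable
  have m1 : ∀ θ, Measurable (e1 θ) := meas_deriv (en L) e1 m0 d1
  have m2 : ∀ θ, Measurable (e2 θ) := meas_deriv e1 e2 m1 d2
  -- bounds of sums over the plaquettes
  have tb : ∀ (c : ℝ) (x : ℕ), 0 ≤ c → x < L → c * (1 + (x : ℝ)) ^ 2 ≤ c * (L : ℝ) ^ 2 :=
    fun c x hc hx => mul_le_mul_of_nonneg_left (sq_le hx) hc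
  refine ⟨e1, e2, m1, m2, fun θ σ => ⟨d1 θ σ, d2 θ σ, ?_, ?_, ?_⟩, fun σ => ⟨?_, ?_⟩⟩
  · have t1 : |T12 L (fun a b c d x => A1 a b c d x θ) σ| ≤ (L : ℝ) ^ 4 * (|C1| * (L : ℝ) ^ 2) :=
      T12_abs (by positivity) fun a b c d _ _ _ _ x hx => (bA1 a b c d x θ).trans (tb _ x a1 hx)
    have t2 : |T23 L (fun a b c d x => B1 a b c d x θ) σ| ≤ (L : ℝ) ^ 4 * (|C2| * (L : ℝ) ^ 2) :=
      T23_abs (by positivity) fun a b c d _ _ _ _ x hx => (bB1 a b c d x θ).trans (tb _ x a2 hx)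
    have t3 := abs_add_le (T12 L (fun a b c d x => A1 a b c d x θ) σ)
      (T23 L (fun a b c d x => B1 a b c d x θ) σ)
    have t4 : (L : ℝ) ^ 4 * (|C1| * (L : ℝ) ^ 2) + (L : ℝ) ^ 4 * (|C2| * (L : ℝ) ^ 2) =
      (|C1| + |C2|) * (L : ℝ) ^ 6 := by ring
    have t5 : (|C1| + |C2|) * (L : ℝ) ^ 6 ≤ (64 * (|C1| + |C2|) + 24) * (L : ℝ) ^ 6 :=
      mul_le_mul_of_nonneg_right (by linarith) hL6
    linarith
  · have t1 : |T12 L (fun a b c d x => A2 a b c d x θ) σ| ≤ (L : ℝ) ^ 4 * (|C1| * (L : ℝ) ^ 2) :=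
      T12_abs (by positivity) fun a b c d _ _ _ _ x hx => (bA2 a b c d x θ).trans (tb _ x a1 hx)
    have t2 : |T23 L (fun a b c d x => B2 a b c d x θ) σ| ≤ (L : ℝ) ^ 4 * (|C2| * (L : ℝ) ^ 2) :=
      T23_abs (by positivity) fun a b c d _ _ _ _ x hx => (bB2 a b c d x θ).trans (tb _ x a2 hx)
    have t3 := abs_add_le (T12 L (fun a b c d x => A2 a b c d x θ) σ)
      (T23 L (fun a b c d x => B2 a b c d x θ) σ)
    have t4 : (L : ℝ) ^ 4 * (|C1| * (L : ℝ) ^ 2) + (L : ℝ) ^ 4 * (|C2| * (L : ℝ) ^ 2) =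
      (|C1| + |C2|) * (L : ℝ) ^ 6 := by ring
    have t5 : (|C1| + |C2|) * (L : ℝ) ^ 6 ≤ (64 * (|C1| + |C2|) + 24) * (L : ℝ) ^ 6 :=
      mul_le_mul_of_nonneg_right (by linarith) hL6
    linarith
  · refine (en_bound θ σ).trans ?_
    calc 24 * (L : ℝ) ^ 4 ≤ 24 * (L : ℝ) ^ 6 := by linarith
      _ ≤ (64 * (|C1| + |C2|) + 24) * (L : ℝ) ^ 6 :=
        mul_le_mul_of_nonneg_right (by linarith) hL6
  all_goals
    obtain ⟨Kq, hKq⟩ := qf_eq σ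
    have hs0 := sz_nonneg σ
    have q1 : ∀ θ, HasDerivAt (fun θ => qf L θ fun l => ch (σ l : ℍ[ℝ]))
        (T12 L (fun a b c d x => deriv (fun θ => Q12 θ a b c d x) θ) σ +
          T23 L (fun a b c d x => deriv (fun θ => Q23 θ a b c d x) θ) σ) θ := by
      intro θ
      have e : (fun θ => qf L θ fun l => ch (σ l : ℍ[ℝ])) =
          fun θ => T12 L (Q12 θ) σ + T23 L (Q23 θ) σ + Kq := funext hKq
      rw [e]
      exact ((T12_deriv (fun a b c d x => (cd2 (q12_cd x _ _ _ _) θ).1) σ).add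
        (T23_deriv (fun a b c d x => (cd2 (q23_cd x _ _ _ _) θ).1) σ)).add_const _
    have q2 : HasDerivAt (fun θ => T12 L (fun a b c d x => deriv (fun θ => Q12 θ a b c d x) θ) σ +
          T23 L (fun a b c d x => deriv (fun θ => Q23 θ a b c d x) θ) σ)
        (T12 L (fun a b c d x => deriv (deriv fun θ => Q12 θ a b c d x) 0) σ +
          T23 L (fun a b c d x => deriv (deriv fun θ => Q23 θ a b c d x) 0) σ) 0 :=
      (T12_deriv (fun a b c d x => (cd2 (q12_cd x _ _ _ _) 0).2) σ).add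
        (T23_deriv (fun a b c d x => (cd2 (q23_cd x _ _ _ _) 0).2) σ)
    have q3 : deriv (fun θ => qf L θ fun l => ch (σ l : ℍ[ℝ])) = fun θ =>
        T12 L (fun a b c d x => deriv (fun θ => Q12 θ a b c d x) θ) σ +
          T23 L (fun a b c d x => deriv (fun θ => Q23 θ a b c d x) θ) σ :=
      funext fun θ => (q1 θ).deriv
    have tc : ∀ (C : ℝ) (a b c d : SU) (x : ℕ), 0 ≤ C → ‖(a : ℍ[ℝ]) - 1‖ ≤ sz σ →
        ‖(b : ℍ[ℝ]) - 1‖ ≤ sz σ → ‖(c : ℍ[ℝ]) - 1‖ ≤ sz σ → ‖(d : ℍ[ℝ]) - 1‖ ≤ sz σ → x < L →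
        C * (1 + (x : ℝ)) ^ 2 *
          (‖(a : ℍ[ℝ]) - 1‖ + ‖(b : ℍ[ℝ]) - 1‖ + ‖(c : ℍ[ℝ]) - 1‖ + ‖(d : ℍ[ℝ]) - 1‖) ^ 3 ≤
        C * (L : ℝ) ^ 2 * (64 * sz σ ^ 3) := fun C a b c d x hC ha hb hc hd hx =>
      mul_le_mul (tb C x hC hx) (cube_le (norm_nonneg _) (norm_nonneg _) (norm_nonneg _)
        (norm_nonneg _) ha hb hc hd) (by positivity) (by positivity)
  · have t1 : |T12 L (fun a b c d x => A1 a b c d x 0 -
        ((a : ℍ[ℝ]).imK + (b : ℍ[ℝ]).imK - (c : ℍ[ℝ]).imK - (d : ℍ[ℝ]).imK) -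
        deriv (fun θ => Q12 θ a b c d x) 0) σ| ≤ (L : ℝ) ^ 4 * (|C1| * (L : ℝ) ^ 2 * (64 * sz σ ^ 3)) :=
      T12_abs (by positivity) fun a b c d ha hb hc hd x hx =>
        (rA1 a b c d x).trans (tc _ a b c d x a1 ha hb hc hd hx)
    have t2 : |T23 L (fun a b c d x => B1 a b c d x 0 -
        deriv (fun θ => Q23 θ a b c d x) 0) σ| ≤ (L : ℝ) ^ 4 * (|C2| * (L : ℝ) ^ 2 * (64 * sz σ ^ 3)) :=
      T23_abs (by positivity) fun a b c d ha hb hc hd x hx =>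
        (rB1 a b c d x).trans (tc _ a b c d x a2 ha hb hc hd hx)
    rw [T12_sub (fun a b c d x => A1 a b c d x 0 -
        ((a : ℍ[ℝ]).imK + (b : ℍ[ℝ]).imK - (c : ℍ[ℝ]).imK - (d : ℍ[ℝ]).imK))
        (fun a b c d x => deriv (fun θ => Q12 θ a b c d x) 0),
      T12_sub (fun a b c d x => A1 a b c d x 0) (fun a b c d _ =>
        ((a : ℍ[ℝ]).imK + (b : ℍ[ℝ]).imK - (c : ℍ[ℝ]).imK - (d : ℍ[ℝ]).imK)),
      T12_tele (fun q : SU => (q : ℍ[ℝ]).imK) (by rw [one_coe]; rfl) σ, sub_zero] at t1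
    rw [T23_sub (fun a b c d x => B1 a b c d x 0)
      (fun a b c d x => deriv (fun θ => Q23 θ a b c d x) 0)] at t2
    rw [q3]
    have t3 := abs_add_le
      (T12 L (fun a b c d x => A1 a b c d x 0) σ -
        T12 L (fun a b c d x => deriv (fun θ => Q12 θ a b c d x) 0) σ)
      (T23 L (fun a b c d x => B1 a b c d x 0) σ -
        T23 L (fun a b c d x => deriv (fun θ => Q23 θ a b c d x) 0) σ)
    have e : e1 0 σ - (T12 L (fun a b c d x => deriv (fun θ => Q12 θ a b c d x) 0) σ +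
          T23 L (fun a b c d x => deriv (fun θ => Q23 θ a b c d x) 0) σ) =
        (T12 L (fun a b c d x => A1 a b c d x 0) σ -
          T12 L (fun a b c d x => deriv (fun θ => Q12 θ a b c d x) 0) σ) +
        (T23 L (fun a b c d x => B1 a b c d x 0) σ -
          T23 L (fun a b c d x => deriv (fun θ => Q23 θ a b c d x) 0) σ) := by
      rw [he1]
      ring
    rw [e]
    have t4 : (L : ℝ) ^ 4 * (|C1| * (L : ℝ) ^ 2 * (64 * sz σ ^ 3)) +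
        (L : ℝ) ^ 4 * (|C2| * (L : ℝ) ^ 2 * (64 * sz σ ^ 3)) =
        64 * (|C1| + |C2|) * (L : ℝ) ^ 6 * sz σ ^ 3 := by ring
    have t5 : 64 * (|C1| + |C2|) * (L : ℝ) ^ 6 * sz σ ^ 3 ≤
        (64 * (|C1| + |C2|) + 24) * (L : ℝ) ^ 6 * sz σ ^ 3 :=
      mul_le_mul_of_nonneg_right (mul_le_mul_of_nonneg_right (by linarith) hL6) (by positivity)
    linarith
  · have t1 : |T12 L (fun a b c d x => A2 a b c d x 0 - 1 / 2 +
        (1 / 8) * (ph 2 a + ph 2 b - ph 2 c - ph 2 d) ^ 2 -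
        deriv (deriv fun θ => Q12 θ a b c d x) 0) σ| ≤
        (L : ℝ) ^ 4 * (|C1| * (L : ℝ) ^ 2 * (64 * sz σ ^ 3)) :=
      T12_abs (by positivity) fun a b c d ha hb hc hd x hx =>
        (rA2 a b c d x).trans (tc _ a b c d x a1 ha hb hc hd hx)
    have t2 : |T23 L (fun a b c d x => B2 a b c d x 0 -
        deriv (deriv fun θ => Q23 θ a b c d x) 0) σ| ≤
        (L : ℝ) ^ 4 * (|C2| * (L : ℝ) ^ 2 * (64 * sz σ ^ 3)) :=
      T23_abs (by positivity) fun a b c d ha hb hc hd x hx =>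
        (rB2 a b c d x).trans (tc _ a b c d x a2 ha hb hc hd hx)
    rw [T12_sub (fun a b c d x => A2 a b c d x 0 - 1 / 2 +
        (1 / 8) * (ph 2 a + ph 2 b - ph 2 c - ph 2 d) ^ 2)
        (fun a b c d x => deriv (deriv fun θ => Q12 θ a b c d x) 0),
      T12_add (fun a b c d x => A2 a b c d x 0 - 1 / 2)
        (fun a b c d x => (1 / 8) * (ph 2 a + ph 2 b - ph 2 c - ph 2 d) ^ 2),
      T12_sub (fun a b c d x => A2 a b c d x 0) (fun _ _ _ _ _ => 1 / 2),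
      T12_smul (1 / 8) (fun a b c d _ => (ph 2 a + ph 2 b - ph 2 c - ph 2 d) ^ 2),
      T12_const hL] at t1
    rw [T23_sub (fun a b c d x => B2 a b c d x 0)
      (fun a b c d x => deriv (deriv fun θ => Q23 θ a b c d x) 0)] at t2
    rw [q3, q2.deriv, c12_eq]
    have t3 := abs_add_le
      (T12 L (fun a b c d x => A2 a b c d x 0) σ - (L : ℝ) ^ 3 * (L - 1) * (1 / 2) +
        1 / 8 * T12 L (fun a b c d _ => (ph 2 a + ph 2 b - ph 2 c - ph 2 d) ^ 2) σ -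
        T12 L (fun a b c d x => deriv (deriv fun θ => Q12 θ a b c d x) 0) σ)
      (T23 L (fun a b c d x => B2 a b c d x 0) σ -
        T23 L (fun a b c d x => deriv (deriv fun θ => Q23 θ a b c d x) 0) σ)
    have e : e2 0 σ - 1 / 2 * (L : ℝ) ^ 3 * (L - 1) -
        (T12 L (fun a b c d x => deriv (deriv fun θ => Q12 θ a b c d x) 0) σ +
          T23 L (fun a b c d x => deriv (deriv fun θ => Q23 θ a b c d x) 0) σ) +
        1 / 8 * T12 L (fun a b c d _ => (ph 2 a + ph 2 b - ph 2 c - ph 2 d) ^ 2) σ =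
        (T12 L (fun a b c d x => A2 a b c d x 0) σ - (L : ℝ) ^ 3 * (L - 1) * (1 / 2) +
          1 / 8 * T12 L (fun a b c d _ => (ph 2 a + ph 2 b - ph 2 c - ph 2 d) ^ 2) σ -
          T12 L (fun a b c d x => deriv (deriv fun θ => Q12 θ a b c d x) 0) σ) +
        (T23 L (fun a b c d x => B2 a b c d x 0) σ -
          T23 L (fun a b c d x => deriv (deriv fun θ => Q23 θ a b c d x) 0) σ) := by
      rw [he2]
      ring
    rw [e]
    have t4 : (L : ℝ) ^ 4 * (|C1| * (L : ℝ) ^ 2 * (64 * sz σ ^ 3)) +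
        (L : ℝ) ^ 4 * (|C2| * (L : ℝ) ^ 2 * (64 * sz σ ^ 3)) =
        64 * (|C1| + |C2|) * (L : ℝ) ^ 6 * sz σ ^ 3 := by ring
    have t5 : 64 * (|C1| + |C2|) * (L : ℝ) ^ 6 * sz σ ^ 3 ≤
        (64 * (|C1| + |C2|) + 24) * (L : ℝ) ^ 6 * sz σ ^ 3 :=
      mul_le_mul_of_nonneg_right (mul_le_mul_of_nonneg_right (by linarith) hL6) (by positivity)
    linarith

end

end Pool.Agent.H120.AF
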